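import Mathlib
import Pool.Agent.H97R2.BP.Defs
import Pool.Agent.H97R2.BP.Defs2

/-! Limits of contractive projections onto corners of a von Neumann algebra. -/

open scoped ComplexOrder InnerProductSpace ComplexConjugate TensorProduct
open Finset H759R2.Kad H710R2.DP

noncomputable section

namespace H97R2.BP

namespace ZZ58

variable {H : Type} [NormedAddCommGroup H] [InnerProductSpace ℂ H]

theorem ext_inner' {a b : H →L[ℂ] H} (h : ∀ ξ η : H, ⟪η, a ξ⟫_ℂ = ⟪η, b ξ⟫_ℂ) : a = b := by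
  ext ξ
  exact ext_inner_left ℂ fun η => h ξ η

variable [CompleteSpace H]

theorem inner_star (t : H →L[ℂ] H) (x y : H) : ⟪x, t y⟫_ℂ = ⟪(star t) x, y⟫_ℂ := by
  rw [ContinuousLinearMap.star_eq_adjoint, ContinuousLinearMap.adjoint_inner_left]

theorem inner_pr {q : H →L[ℂ] H} (hq : IsPr q) (x y : H) : ⟪x, q y⟫_ℂ = ⟪q x, y⟫_ℂ := by
  rw [inner_star, hq.1]

theorem norm_pr {q : H →L[ℂ] H} (hq : IsPr q) : ‖q‖ ≤ 1 := by
  have h1 : ‖q‖ = ‖q‖ * ‖q‖ := by
    have h2 := CStarRing.norm_star_mul_self (x := q)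
    rwa [hq.1, hq.2] at h2
  by_contra hc
  nlinarith

theorem norm_pr_apply {q : H →L[ℂ] H} (hq : IsPr q) (x : H) : ‖q x‖ ≤ ‖x‖ := by
  calc ‖q x‖ ≤ ‖q‖ * ‖x‖ := q.le_opNorm x
    _ ≤ 1 * ‖x‖ := by gcongr; exact norm_pr hq
    _ = ‖x‖ := one_mul _

theorem mul_pr {e p : H →L[ℂ] H} (he : IsPr e) (hp : IsPr p) (h : p * e = e) : e * p = e := by
  have h1 := congrArg star h
  rwa [star_mul, he.1, hp.1] at h1

theorem isPr_sub {e p : H →L[ℂ] H} (he : IsPr e) (hp : IsPr p) (h : p * e = e) : IsPr (p - e) := by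
  refine ⟨by rw [star_sub, he.1, hp.1], ?_⟩
  have h' := mul_pr he hp h
  rw [mul_sub, sub_mul, sub_mul, hp.2, he.2, h, h']
  abel

/-- strong convergence -/
theorem tendsto_pr {I : Type} [Preorder I] [IsDirectedOrder I] [Nonempty I]
    {e : I → (H →L[ℂ] H)} {p : H →L[ℂ] H} (he : ∀ i, IsPr (e i)) (hp : IsPr p)
    (hpe : ∀ i, p * e i = e i) (hmono : ∀ i j, i ≤ j → e j * e i = e i) (ζ : H)
    (hζ : ∀ ε : ℝ, 0 < ε → ∃ i, ‖e i ζ - p ζ‖ ≤ ε) :
    Filter.Tendsto (fun i => e i ζ) Filter.atTop (nhds (p ζ)) := by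
  rw [Metric.tendsto_nhds]
  intro ε hε
  obtain ⟨i, hi⟩ := hζ (ε / 2) (by linarith)
  filter_upwards [Filter.eventually_ge_atTop i] with j hj
  have h1 : (p - e j) * (p - e i) = p - e j := by
    rw [mul_sub, sub_mul, sub_mul, hp.2, hpe i, hmono i j hj, mul_pr (he j) hp (hpe j)]
    abel
  have h2 : (p - e j) ζ = (p - e j) ((p - e i) ζ) := by
    rw [← ContinuousLinearMap.mul_apply, h1]
  have h3 := norm_pr_apply (isPr_sub (he j) hp (hpe j)) ((p - e i) ζ)
  rw [← h2] at h3
  rw [dist_eq_norm, norm_sub_rev]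
  have h4 : ‖(p - e i) ζ‖ = ‖e i ζ - p ζ‖ := by
    rw [ContinuousLinearMap.sub_apply, norm_sub_rev]
  rw [h4] at h3
  have h5 : ‖p ζ - e j ζ‖ = ‖(p - e j) ζ‖ := by rw [ContinuousLinearMap.sub_apply]
  rw [h5]
  linarith

end ZZ58

open ZZ58

theorem bp_dir (h : Z_ulim) : Z_dir := by
  intro H _ _ _ M p I _ _ _ e he hpM hp hpe hmono happ
  have heM : ∀ i, e i ∈ M := fun i => (he i).1
  have hePr : ∀ i, IsPr (e i) := fun i => (he i).2.1
  choose Q hQn hQ hQf using fun i => (he i).2.2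
  set U : Ultrafilter I := Ultrafilter.of Filter.atTop with hU
  have hUle : (U : Filter I) ≤ Filter.atTop := Ultrafilter.of_le _
  -- the compressed maps
  set T : I → (H →L[ℂ] H) → (H →L[ℂ] H) := fun i x => Q i (e i * x * e i) with hT
  have hTn : ∀ i x, ‖T i x‖ ≤ ‖x‖ := by
    intro i x
    refine (hQn i _).trans ?_
    have h1 := norm_pr (hePr i)
    calc ‖e i * x * e i‖ ≤ ‖e i * x‖ * ‖e i‖ := norm_mul_le _ _
      _ ≤ (‖e i‖ * ‖x‖) * ‖e i‖ := by gcongr; exact norm_mul_le _ _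
      _ ≤ (1 * ‖x‖) * 1 := by gcongr
      _ = ‖x‖ := by ring
  have hTadd : ∀ i x y, T i (x + y) = T i x + T i y := by
    intro i x y
    simp only [hT]
    rw [mul_add, add_mul, map_add]
  have hTsmul : ∀ i (c : ℂ) x, T i (c • x) = c • T i x := by
    intro i c x
    simp only [hT]
    rw [mul_smul_comm, smul_mul_assoc, map_smul]
  choose S hSn hS using fun x => h H I U (fun i => T i x) ‖x‖ (fun i => hTn i x)
  have huniq : ∀ (a : H →L[ℂ] H) (x : H →L[ℂ] H),
      (∀ ξ η : H, Filter.Tendsto (fun i => ⟪η, T i x ξ⟫_ℂ) U (nhds ⟪η, a ξ⟫_ℂ)) → S x = a :=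
    fun a x ha => ext_inner' fun ξ η => tendsto_nhds_unique (hS x ξ η) (ha ξ η)
  refine ⟨{ toFun := S, map_add' := ?_, map_smul' := ?_ }, hSn, ?_, ?_⟩
  · intro x y
    apply huniq
    intro ξ η
    have h1 := (hS x ξ η).add (hS y ξ η)
    simp only [hTadd, ContinuousLinearMap.add_apply, inner_add_right]
    exact h1
  · intro c x
    apply huniq
    intro ξ η
    have h1 := (hS x ξ η).const_mul c
    simp only [hTsmul, ContinuousLinearMap.smul_apply, inner_smul_right, RingHom.id_apply]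
    exact h1
  · intro x
    show S x ∈ M ∧ p * S x = S x ∧ S x * p = S x
    refine ⟨?_, ?_, ?_⟩
    · have hMc : M.commutant.commutant = M := VonNeumannAlgebra.commutant_commutant M
      rw [← hMc, VonNeumannAlgebra.mem_commutant_iff]
      intro t ht
      rw [VonNeumannAlgebra.mem_commutant_iff] at ht
      apply ext_inner'
      intro ξ η
      have h1 : Filter.Tendsto (fun i => ⟪η, (t * T i x) ξ⟫_ℂ) U (nhds ⟪η, (t * S x) ξ⟫_ℂ) := by
        have h2 := hS x ξ ((star t) η)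
        simp only [ContinuousLinearMap.mul_apply]
        rw [inner_star t η]
        refine h2.congr fun i => ?_
        rw [inner_star t η]
      have h2 : Filter.Tendsto (fun i => ⟪η, (T i x * t) ξ⟫_ℂ) U (nhds ⟪η, (S x * t) ξ⟫_ℂ) :=
        hS x (t ξ) η
      refine tendsto_nhds_unique h1 (h2.congr fun i => ?_)
      rw [ht _ (hQ i _).1]
    · symm
      apply ext_inner'
      intro ξ η
      have h1 : Filter.Tendsto (fun i => ⟪η, (p * T i x) ξ⟫_ℂ) U (nhds ⟪η, (p * S x) ξ⟫_ℂ) := by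
        have h2 := hS x ξ ((star p) η)
        simp only [ContinuousLinearMap.mul_apply]
        rw [inner_star p η]
        refine h2.congr fun i => ?_
        rw [inner_star p η]
      refine tendsto_nhds_unique (hS x ξ η) (h1.congr fun i => ?_)
      have h3 : p * T i x = T i x := by
        have h4 := (hQ i (e i * x * e i)).2.1
        calc p * T i x = p * (e i * Q i (e i * x * e i)) := by rw [h4]
          _ = (p * e i) * Q i (e i * x * e i) := (mul_assoc _ _ _).symm
          _ = T i x := by rw [hpe i, h4]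
      rw [h3]
    · symm
      apply huniq
      intro ξ η
      refine (hS x (p ξ) η).congr fun i => ?_
      have h3 : T i x * p = T i x := by
        have h4 := (hQ i (e i * x * e i)).2.2
        calc T i x * p = (Q i (e i * x * e i) * e i) * p := by rw [h4]
          _ = Q i (e i * x * e i) * (e i * p) := mul_assoc _ _ _
          _ = T i x := by rw [mul_pr (hePr i) hp (hpe i), h4]
      rw [← ContinuousLinearMap.mul_apply, h3]
  · intro m hm hpm hmp
    show S m = m
    apply huniq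
    intro ξ η
    have hTm : ∀ i, T i m = e i * m * e i := by
      intro i
      apply hQf i
      · exact mul_mem (mul_mem (heM i) hm) (heM i)
      · rw [← mul_assoc, ← mul_assoc, (hePr i).2]
      · rw [mul_assoc, (hePr i).2]
    have c1 := (tendsto_pr hePr hp hpe hmono ξ (happ ξ)).mono_left hUle
    have c2 := (tendsto_pr hePr hp hpe hmono η (happ η)).mono_left hUle
    have c3 : Filter.Tendsto (fun i => ⟪e i η, m (e i ξ)⟫_ℂ) U (nhds ⟪p η, m (p ξ)⟫_ℂ) :=
      c2.inner ((m.continuous.tendsto _).comp c1)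
    have c4 : ⟪p η, m (p ξ)⟫_ℂ = ⟪η, m ξ⟫_ℂ := by
      rw [← inner_pr hp]
      have : p (m (p ξ)) = (p * (m * p)) ξ := rfl
      rw [this, hmp, hpm]
    rw [c4] at c3
    refine c3.congr fun i => ?_
    rw [hTm i, ← inner_pr (hePr i)]
    rfl

end H97R2.BP
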